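import Mathlib
import Pool.Agent.H.MP_c4e2dd_an.B

namespace Pool.Agent.Results.MP_c4e2dd_an.NotGD

open MeasureTheory AddCircle

/-- boundary functions of bounded analytic functions on the disc -/
def Hinf (f : UnitAddCircle → ℂ) : Prop :=
  MemLp f ⊤ haarAddCircle ∧ ∀ n : ℤ, n < 0 → fourierCoeff f n = 0

/-- the value at a point `z` of the disc, given by the Cauchy integral of the boundary function -/
noncomputable def val (f : UnitAddCircle → ℂ) (z : ℂ) : ℂ :=
  ∫ t, f t * (1 - z * (starRingEnd ℂ) (fourier 1 t))⁻¹ ∂haarAddCircle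

/-- bounded outer functions -/
def Outer (θ : UnitAddCircle → ℂ) : Prop :=
  Hinf θ ∧ (∀ᵐ t ∂haarAddCircle, θ t ≠ 0) ∧
    Integrable (fun t => Real.log ‖θ t‖) haarAddCircle ∧
    ∃ c : ℂ, ‖c‖ = 1 ∧ ∀ z : ℂ, ‖z‖ < 1 → val θ z = c * Complex.exp
      (∫ t, (fourier 1 t + z) / (fourier 1 t - z) * Real.log ‖θ t‖ ∂haarAddCircle)

/-- membership in the sum of `H^∞` and `θ L^∞` -/
def InX (θ f : UnitAddCircle → ℂ) : Prop :=
  ∃ h g : UnitAddCircle → ℂ, Hinf h ∧ MemLp g ⊤ haarAddCircle ∧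
    ∀ᵐ t ∂haarAddCircle, f t = h t + θ t * g t

open Pool.Agent.H.MP_e9aa5f_an Pool.Agent.H.MP_c4e2dd_an Real Complex in
theorem result : ∃ θ f : UnitAddCircle → ℂ, Outer θ ∧ InX θ f ∧ eLpNorm f ⊤ haarAddCircle < 1 ∧
    ¬ InX θ fun t => 1 / (1 - f t) := by
  have hi : ∀ {g B}, HI g B → Hinf g := fun h => ⟨memLp_top_of_bound h.1.1 _ h.1.2, h.2⟩
  have st := fun t => lam_st (Metric.sphere_subset_closedBall (e_mem t))
  set g : UnitAddCircle → ℂ := fun t => -(2 / π * (lam (e t)).im * Hh (lam (e t)) *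
    cexp ((cexp (lam (e t))).im * I)) with hg
  have me := e_cont.measurable
  have ml : Measurable lam := by unfold lam; fun_prop
  have ou := Pool.Agent.H.MP_c4e2dd_an.outer
  have bg : Bd g (1 * rexp (π / 2) * 1) := by
    refine ((Bd.mul ⟨Measurable.aestronglyMeasurable (by fun_prop), .of_forall fun t => ?_⟩
      mp_Hh.1.1).mul ⟨Measurable.aestronglyMeasurable (by fun_prop), by simp⟩).neg
    rw [← ofReal_ofNat, ← ofReal_div, ← ofReal_mul, Complex.norm_real, Real.norm_of_nonneg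
      (mul_nonneg (by positivity) (st t).1), div_mul_eq_mul_div, div_le_one pi_pos]
    linarith [(st t).2]
  have bf : Bd (fun t => Hh (lam (e t)) + Th (lam (e t)) * g t) (rexp (-(π / 2))) := by
    refine ⟨mp_Hh.1.1.1.add (mp_Th.1.1.mul bg).1, ?_⟩
    filter_upwards [lam_bd] with t ht
    rcases ht with ht | ht
    · simp [hg, ht, Hh_norm]
    · have h1 : cexp ((cexp (lam (e t))).im * I) * Th (lam (e t)) = 1 := by
        rw [Th, ← Complex.exp_add, ← Complex.exp_zero]
        congr 1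
        apply Complex.ext <;> simp [exp_re, ht]
      have h2 : (2 / π * (lam (e t)).im : ℂ) = 1 := by
        have := pi_pos.ne'
        rw [ht]; push_cast; field_simp
      rw [show Hh (lam (e t)) + Th (lam (e t)) * g t = 0 by
        simp only [hg, h2]; linear_combination (-Hh (lam (e t))) * h1, norm_zero]
      positivity
  have lt1 : rexp (-(π / 2)) < 1 := by rw [Real.exp_lt_one_iff]; linarith [pi_pos]
  refine ⟨fun t => Th (lam (e t)), _, ⟨hi mp_Th.1, .of_forall fun t => Complex.exp_ne_zero _, ?_,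
    cexp (-((cexp (lam 0)).im * I)), by simp [Complex.norm_exp], fun z hz => ?_⟩,
    ⟨_, g, hi mp_Hh.1, memLp_top_of_bound bg.1 _ bg.2, .of_forall fun t => rfl⟩,
    (eLpNormEssSup_le_of_ae_bound bf.2).trans_lt (ENNReal.ofReal_lt_one.2 lt1), ?_⟩
  · simp only [Th_norm, Real.log_exp]
    exact ou.1.neg
  · have hz' := mem_ball_zero_iff.2 hz
    refine (mp_Th.val hz').trans ?_
    simp only [Th_norm, Real.log_exp, ofReal_neg, mul_neg, integral_neg]
    rw [← Complex.exp_add, Th]
    congr 1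
    have := ou.2 z hz'
    simp only [e] at this ⊢
    linear_combination this
  · rintro ⟨k, m, ⟨h1, h2⟩, h3, h4⟩
    have bk := bd_top h1.1 h1.2
    refine no_corona ⟨bk, h2⟩ ((((bd_const 1).sub bf).mul (bd_top h3.1 h3.2)).sub (bg.mul bk)) ?_
    filter_upwards [h4, bf.2] with t h5 h6
    rw [div_eq_iff fun h => by simp [← sub_eq_zero.1 h, lt1.not_ge] at h6] at h5
    linear_combination h5

end Pool.Agent.Results.MP_c4e2dd_an.NotGD
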